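import Pool.Agent.V5helper49.IR.Stm2
import Pool.Agent.V5helper12.IR.CHE

/-! Project IR (helper49), job BIG. -/

set_option autoImplicit false

namespace Pool.Agent.V5helper84.IR

open Finset Pool.Agent.V5helper49.IR Pool.Agent.V5helper12.IR

theorem t_BIG (h : S_SUB) : S_BIG := by
  intro p hp K k₀ M n hK hl
  obtain ⟨l, hld⟩ : ∃ l : ℝ, l = lm p k₀ M n := ⟨_, rfl⟩
  rw [← hld] at hK hl ⊢
  obtain ⟨P, hP⟩ : ∃ P : Finset ℕ, P = PS k₀ M n := ⟨_, rfl⟩
  have hPm : ∀ a ∈ P, a < M ∧ k₀ ≤ a ∧ 2 * a < n ∧ n - a < M := by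
    intro a ha
    rw [hP, PS, mem_filter, mem_range] at ha
    exact ha
  obtain ⟨f, hf⟩ : ∃ f : ℕ → Finset ℕ → ℝ, f = fun a B => if ({a, n - a} : Finset ℕ) ⊆ B then 1 else 0 := ⟨_, rfl⟩
  have he : ∀ a ∈ P, EB p M (f a) = p a * p (n - a) := by
    intro a ha
    obtain ⟨h1, h2, h3, h4⟩ := hPm a ha
    have h5 := h p M {a, n - a} (by
      intro x hx
      rw [mem_insert, mem_singleton] at hx
      rw [mem_range]
      rcases hx with rfl | rfl
      · exact h1
      · exact h4)
    rw [prod_pair (by omega)] at h5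
    rw [hf]
    exact h5
  have hcov : ∀ a ∈ P, ∀ b ∈ P, EB p M (fun B => f a B * f b B) ≤
      (p a * p (n - a)) * (p b * p (n - b)) + if a = b then p a * p (n - a) else 0 := by
    intro a ha b hb
    by_cases hab : a = b
    · subst hab
      have h1 : (fun B => f a B * f a B) = f a := by
        funext B
        rw [hf]
        dsimp only
        split_ifs <;> simp
      rw [h1, he a ha, if_pos rfl]
      have h2 := mul_nonneg (hp a).1 (hp (n - a)).1
      nlinarith
    · rw [if_neg hab, add_zero]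
      obtain ⟨h1, h2, h3, h4⟩ := hPm a ha
      obtain ⟨g1, g2, g3, g4⟩ := hPm b hb
      have h5 : (fun B => f a B * f b B) = fun B => if ({a, n - a} ∪ {b, n - b} : Finset ℕ) ⊆ B then 1 else 0 := by
        funext B
        rw [hf]
        dsimp only
        by_cases h1' : ({a, n - a} : Finset ℕ) ⊆ B <;> by_cases h2' : ({b, n - b} : Finset ℕ) ⊆ B <;>
          simp only [union_subset_iff, h1', h2', if_true, if_false, and_true, and_false, and_self, mul_one, mul_zero]
      have h6 := h p M ({a, n - a} ∪ {b, n - b}) (by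
        intro x hx
        rw [mem_union, mem_insert, mem_singleton, mem_insert, mem_singleton] at hx
        rw [mem_range]
        rcases hx with (rfl | rfl) | (rfl | rfl)
        · exact h1
        · exact h4
        · exact g1
        · exact g4)
      have hdis : Disjoint ({a, n - a} : Finset ℕ) {b, n - b} := by
        rw [disjoint_left]
        intro x hx hx'
        rw [mem_insert, mem_singleton] at hx hx'
        rcases hx with rfl | rfl <;> rcases hx' with hx' | hx' <;> omega
      rw [prod_union hdis, prod_pair (by omega), prod_pair (by omega)] at h6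
      rw [h5, h6]
  have hsum : ∑ a ∈ P, p a * p (n - a) = l := by rw [hld, lm, hP]
  have hS : ∑ a ∈ P, ∑ b ∈ P, EB p M (fun B => f a B * f b B) ≤ l ^ 2 + l := by
    refine (sum_le_sum fun a ha => sum_le_sum fun b hb => hcov a ha b hb).trans (le_of_eq ?_)
    simp only [sum_add_distrib]
    congr 1
    · rw [pow_two, ← hsum, sum_mul_sum]
    · rw [← hsum]
      refine sum_congr rfl fun a ha => ?_
      rw [sum_ite_eq, if_pos ha]
  have hpt : ∀ B : Finset ℕ, (if rr k₀ n B < K then (1 : ℝ) else 0) ≤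
      4 / l ^ 2 * (∑ a ∈ P, ∑ b ∈ P, f a B * f b B + ((-2 * l) * ∑ a ∈ P, f a B + l ^ 2)) := by
    intro B
    rw [← sum_mul_sum]
    have hY : ∑ a ∈ P, f a B ≤ rr k₀ n B := by
      have h1 : ∑ a ∈ P, f a B = ((P.filter (fun a => ({a, n - a} : Finset ℕ) ⊆ B)).card : ℝ) := by
        rw [hf]
        simp
      rw [h1]
      have h2 : (P.filter (fun a => ({a, n - a} : Finset ℕ) ⊆ B)).card ≤ rr k₀ n B := by
        unfold rr
        apply card_le_card
        intro a ha
        obtain ⟨ha1, ha2⟩ := mem_filter.1 ha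
        obtain ⟨g1, g2, g3, g4⟩ := hPm a ha1
        exact mem_filter.2 ⟨ha2 (mem_insert_self _ _), g2, g3, ha2 (mem_insert_of_mem (mem_singleton_self _))⟩
      exact_mod_cast h2
    obtain ⟨Z, hZ⟩ : ∃ Z, Z = ∑ a ∈ P, f a B := ⟨_, rfl⟩
    rw [← hZ] at hY ⊢
    have h1 : Z * Z + ((-2 * l) * Z + l ^ 2) = (l - Z) ^ 2 := by ring
    rw [h1]
    split_ifs with hlt
    · have h2 : (rr k₀ n B : ℝ) < K := by exact_mod_cast hlt
      rw [div_mul_eq_mul_div, le_div_iff₀ (by positivity)]
      have h3 : l / 2 ≤ l - Z := by linarith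
      nlinarith
    · positivity
  have h1 := EB_mono hp M _ _ hpt
  rw [EB_mul, EB_add, EB_add, EB_mul, EB_const, EB_sum, EB_sum] at h1
  have h2 : ∀ a ∈ P, EB p M (fun B => ∑ b ∈ P, f a B * f b B) = ∑ b ∈ P, EB p M (fun B => f a B * f b B) :=
    fun a _ => EB_sum p M P fun b B => f a B * f b B
  rw [sum_congr rfl h2, sum_congr rfl he, hsum] at h1
  refine h1.trans ?_
  have h5 : 4 / l ^ 2 * (∑ a ∈ P, ∑ b ∈ P, EB p M (fun B => f a B * f b B) + ((-2 * l) * l + l ^ 2)) ≤
      4 / l ^ 2 * l := mul_le_mul_of_nonneg_left (by nlinarith) (by positivity)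
  refine h5.trans (le_of_eq ?_)
  field_simp

end Pool.Agent.V5helper84.IR
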