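import Pool.Agent.V5helper49.IR.Stm2
import Pool.Agent.V5helper12.IR.CHE

/-! Project IR (helper49), job SCL2. -/

set_option autoImplicit false

namespace Pool.Agent.V5helper84.IR

open Finset Pool.Agent.V5helper49.IR Pool.Agent.V5helper12.IR

theorem EB_congr (p p' : ℕ → ℝ) : ∀ (M : ℕ) (F : Finset ℕ → ℝ), (∀ k < M, p k = p' k) → EB p M F = EB p' M F
  | 0, _, _ => rfl
  | M + 1, F, h => by
    show p M * EB p M (fun B => F (insert M B)) + (1 - p M) * EB p M F =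
      p' M * EB p' M (fun B => F (insert M B)) + (1 - p' M) * EB p' M F
    rw [EB_congr p p' M _ fun k hk => h k (by omega), EB_congr p p' M F fun k hk => h k (by omega), h M (by omega)]

theorem sum_lm (p : ℕ → ℝ) (k₀ M : ℕ) :
    ∑ n ∈ range (2 * M), lm p k₀ M n = ∑ b ∈ Ico k₀ M, ∑ a ∈ Ico k₀ b, p a * p b := by
  unfold lm
  rw [sum_sigma', sum_sigma']
  refine sum_nbij' (fun x => ⟨x.1 - x.2, x.2⟩) (fun y => ⟨y.1 + y.2, y.2⟩) ?_ ?_ ?_ ?_ ?_
  · rintro ⟨n, a⟩ h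
    simp only [mem_sigma, PS, mem_filter, mem_range, mem_Ico] at h ⊢
    omega
  · rintro ⟨b, a⟩ h
    simp only [mem_sigma, PS, mem_filter, mem_range, mem_Ico] at h ⊢
    omega
  · rintro ⟨n, a⟩ h
    simp only [mem_sigma, PS, mem_filter, mem_range, mem_Ico] at h ⊢
    have : n - a + a = n := by omega
    rw [this]
  · rintro ⟨b, a⟩ h
    simp only [mem_sigma, PS, mem_filter, mem_range, mem_Ico] at h ⊢
    rw [Nat.add_sub_cancel]
  · rintro ⟨n, a⟩ h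
    rfl

theorem sq_sum (p : ℕ → ℝ) (k₀ : ℕ) : ∀ M, k₀ ≤ M → (∑ k ∈ Ico k₀ M, p k) ^ 2 =
    2 * ∑ b ∈ Ico k₀ M, ∑ a ∈ Ico k₀ b, p a * p b + ∑ k ∈ Ico k₀ M, p k ^ 2 := by
  intro M hM
  induction M, hM using Nat.le_induction with
  | base => simp
  | succ M hM ih =>
    rw [sum_Ico_succ_top hM, sum_Ico_succ_top hM, sum_Ico_succ_top hM, ← sum_mul, add_sq, ih]
    ring

theorem core (hBIG : S_BIG) (hCHE : S_CHE2) (p : ℕ → ℝ) (hp : ∀ k, 0 ≤ p k ∧ p k ≤ 1) (K k₀ M : ℕ) (hk : k₀ ≤ M)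
    (hv : ∀ k, M ≤ k → p k = 0) (h4 : ∀ k, k₀ ≤ k → p k ≤ 1 / 4) (c c₀ z : ℝ) (hc : 0 < c) (hc₀ : 0 < c₀) (hz : 1 ≤ z)
    (hS1 : c / 2 * z ^ 20 ≤ ∑ k ∈ Ico k₀ M, p k) (hS2 : 1 ≤ ∑ k ∈ Ico k₀ M, p k) (hS3 : (k₀ : ℝ) ≤ ∑ k ∈ Ico k₀ M, p k)
    (hM : (M : ℝ) ≤ 2 * z ^ 40)
    (hPZ : ∀ n, c ^ 2 / 128 ≤ lm p k₀ M n → c₀ ≤ EB p M (fun B => if K ≤ rr k₀ n B then 1 else 0))
    (hK : 2 * (K : ℝ) ≤ z ^ 2) (h1 : 1 / (c₀ * c ^ 2 / 32) ≤ z) (h2 : 512 / (c₀ * c ^ 2 / 32) ^ 2 ≤ z)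
    (F : Finset ℕ → ℝ) (hF1 : ∀ B, F B ≤ 1) (hF0 : ∀ B, ∀ n < 2 * M, ¬ rr k₀ n B < K → F B ≤ 0) :
    EB p M F ≤ 4 / z ^ 2 := by
  have hz0 : 0 < z := by linarith
  by_cases hA : ∃ n, n < 2 * M ∧ z ^ 2 ≤ lm p k₀ M n
  · obtain ⟨n, hn, hl⟩ := hA
    have hl0 : 0 < lm p k₀ M n := lt_of_lt_of_le (by positivity) hl
    refine (EB_mono hp M _ (fun B => if rr k₀ n B < K then 1 else 0) fun B => ?_).trans
      ((hBIG p hp K k₀ M n (hK.trans hl) hl0).trans ?_)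
    · by_cases h : rr k₀ n B < K
      · rw [if_pos h]
        exact hF1 B
      · rw [if_neg h]
        exact hF0 B n hn h
    · exact div_le_div_of_nonneg_left (by norm_num) (by positivity) hl
  · push Not at hA
    obtain ⟨S', hS'⟩ : ∃ S' : ℝ, S' = ∑ k ∈ Ico k₀ M, p k := ⟨_, rfl⟩
    obtain ⟨T, hT⟩ : ∃ T : ℝ, T = ∑ n ∈ range (2 * M), lm p k₀ M n := ⟨_, rfl⟩
    obtain ⟨c1, hc1⟩ : ∃ c1 : ℝ, c1 = c₀ * c ^ 2 / 32 := ⟨_, rfl⟩
    rw [← hc1] at h1 h2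
    have hc1p : 0 < c1 := by rw [hc1]; positivity
    have hsq := sq_sum p k₀ M hk
    rw [← sum_lm, ← hT, ← hS'] at hsq
    rw [← hS'] at hS1 hS2 hS3
    have hq : ∑ k ∈ Ico k₀ M, p k ^ 2 ≤ 1 / 4 * S' := by
      rw [hS', mul_sum]
      refine sum_le_sum fun k hk' => ?_
      rw [mem_Ico] at hk'
      have h5 := h4 k hk'.1
      have h6 := (hp k).1
      nlinarith
    have hT4 : S' ^ 2 ≤ 4 * T := by nlinarith
    have hTz : T ≤ 4 * z ^ 40 * z ^ 2 := by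
      have h5 : T ≤ ∑ n ∈ range (2 * M), z ^ 2 := by
        rw [hT]
        exact sum_le_sum fun n hn => (hA n (mem_range.1 hn)).le
      rw [sum_const, card_range, nsmul_eq_mul] at h5
      push_cast at h5
      have h6 : (2 * (M : ℝ)) * z ^ 2 ≤ (4 * z ^ 40) * z ^ 2 := mul_le_mul_of_nonneg_right (by linarith) (by positivity)
      linarith
    have hSz : S' ≤ 4 * z ^ 21 := by
      have h5 : S' ^ 2 ≤ (4 * z ^ 21) ^ 2 := by
        refine hT4.trans ((mul_le_mul_of_nonneg_left hTz (by norm_num)).trans (le_of_eq ?_))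
        ring
      exact le_of_sq_le_sq h5 (by positivity)
    have hS : ∑ k ∈ range M, p k ≤ 8 * z ^ 21 := by
      have h5 : ∑ k ∈ range M, p k = ∑ k ∈ range k₀, p k + S' := by
        rw [hS', range_eq_Ico, range_eq_Ico, sum_Ico_consecutive _ (Nat.zero_le _) hk]
      have h6 : ∑ k ∈ range k₀, p k ≤ k₀ := by
        refine (sum_le_sum fun k _ => (hp k).2).trans ?_
        rw [sum_const, card_range, nsmul_eq_mul, mul_one]
      rw [h5]
      linarith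
    have hSn : 0 ≤ ∑ k ∈ range M, p k := sum_nonneg fun k _ => (hp k).1
    obtain ⟨L, hL⟩ : ∃ L : Finset ℕ, L = (range (2 * M)).filter (fun n => c ^ 2 / 128 ≤ lm p k₀ M n) := ⟨_, rfl⟩
    have hTc : c ^ 2 / 16 * z ^ 40 ≤ T := by
      have h5 : (c / 2 * z ^ 20) ^ 2 ≤ S' ^ 2 := pow_le_pow_left₀ (by positivity) hS1 2
      have h6 : (c / 2 * z ^ 20) ^ 2 = 4 * (c ^ 2 / 16 * z ^ 40) := by ring
      linarith
    have hLc : c ^ 2 / 32 * z ^ 38 ≤ (L.card : ℝ) := by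
      have h5 : T = ∑ n ∈ L, lm p k₀ M n + ∑ n ∈ (range (2 * M)).filter (fun n => ¬ c ^ 2 / 128 ≤ lm p k₀ M n), lm p k₀ M n := by
        rw [hT, hL, sum_filter_add_sum_filter_not]
      have h6 : ∑ n ∈ L, lm p k₀ M n ≤ L.card * z ^ 2 := by
        rw [← nsmul_eq_mul, ← sum_const]
        refine sum_le_sum fun n hn => ?_
        rw [hL, mem_filter, mem_range] at hn
        exact (hA n hn.1).le
      have h7 : ∑ n ∈ (range (2 * M)).filter (fun n => ¬ c ^ 2 / 128 ≤ lm p k₀ M n), lm p k₀ M n ≤ (4 * z ^ 40) * (c ^ 2 / 128) := by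
        have h8 : ∑ n ∈ (range (2 * M)).filter (fun n => ¬ c ^ 2 / 128 ≤ lm p k₀ M n), lm p k₀ M n ≤
            ∑ n ∈ (range (2 * M)).filter (fun n => ¬ c ^ 2 / 128 ≤ lm p k₀ M n), c ^ 2 / 128 := by
          refine sum_le_sum fun n hn => ?_
          rw [mem_filter] at hn
          linarith [hn.2]
        refine h8.trans ?_
        rw [sum_const, nsmul_eq_mul]
        refine mul_le_mul_of_nonneg_right ?_ (by positivity)
        have h9 : (((range (2 * M)).filter (fun n => ¬ c ^ 2 / 128 ≤ lm p k₀ M n)).card : ℝ) ≤ ((2 * M : ℕ) : ℝ) := by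
          have := card_filter_le (range (2 * M)) (fun n => ¬ c ^ 2 / 128 ≤ lm p k₀ M n)
          rw [card_range] at this
          exact_mod_cast this
        push_cast at h9
        linarith
      have h8 : (c ^ 2 / 32 * z ^ 38) * z ^ 2 ≤ L.card * z ^ 2 := by
        have h9 : (c ^ 2 / 32 * z ^ 38) * z ^ 2 = c ^ 2 / 16 * z ^ 40 - (4 * z ^ 40) * (c ^ 2 / 128) := by ring
        linarith
      exact le_of_mul_le_mul_right h8 (by positivity)
    have hm : c1 * z ^ 38 ≤ ∑ n ∈ L, EB p M (fun B => if K ≤ rr k₀ n B then 1 else 0) := by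
      have h5 : c₀ * (L.card : ℝ) ≤ ∑ n ∈ L, EB p M (fun B => if K ≤ rr k₀ n B then 1 else 0) := by
        rw [mul_comm, ← nsmul_eq_mul, ← sum_const]
        refine sum_le_sum fun n hn => ?_
        rw [hL, mem_filter] at hn
        exact hPZ n hn.2
      refine le_trans ?_ h5
      have h6 : c1 * z ^ 38 = c₀ * (c ^ 2 / 32 * z ^ 38) := by rw [hc1]; ring
      rw [h6]
      exact mul_le_mul_of_nonneg_left hLc hc₀.le
    have hche := hCHE p hp K k₀ M L hv (c1 * z ^ 38) (by positivity) hm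
    refine (EB_mono hp M _ (fun B => if ∀ n ∈ L, rr k₀ n B < K then 1 else 0) fun B => ?_).trans (hche.trans ?_)
    · by_cases h : ∀ n ∈ L, rr k₀ n B < K
      · rw [if_pos h]
        exact hF1 B
      · rw [if_neg h]
        push Not at h
        obtain ⟨n, hn, hn2⟩ := h
        rw [hL, mem_filter, mem_range] at hn
        exact hF0 B n hn.1 (not_lt.2 hn2)
    · have hS3' : (∑ k ∈ range M, p k) ^ 3 ≤ 512 * z ^ 63 := by
        refine (pow_le_pow_left₀ hSn hS 3).trans (le_of_eq ?_)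
        ring
      have e1 : 1 / (c1 * z ^ 38) ≤ 1 / z ^ 2 := by
        rw [div_le_div_iff₀ (by positivity) (by positivity), one_mul, one_mul]
        rw [div_le_iff₀ hc1p] at h1
        have h5 : z ^ 2 * 1 ≤ z ^ 2 * (z * c1) := mul_le_mul_of_nonneg_left h1 (by positivity)
        have h6 : z ^ 3 ≤ z ^ 38 := pow_le_pow_right₀ hz (by norm_num)
        have h7 : c1 * z ^ 3 ≤ c1 * z ^ 38 := mul_le_mul_of_nonneg_left h6 hc1p.le
        nlinarith
      have e2 : (∑ k ∈ range M, p k) ^ 3 / (c1 * z ^ 38) ^ 2 ≤ 1 / z ^ 2 := by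
        rw [div_le_div_iff₀ (by positivity) (by positivity), one_mul]
        rw [div_le_iff₀ (by positivity)] at h2
        have h5 : (∑ k ∈ range M, p k) ^ 3 * z ^ 2 ≤ 512 * z ^ 63 * z ^ 2 := mul_le_mul_of_nonneg_right hS3' (by positivity)
        have h6 : 512 * (z ^ 63 * z ^ 2) ≤ (z * c1 ^ 2) * (z ^ 63 * z ^ 2) := mul_le_mul_of_nonneg_right h2 (by positivity)
        have h7 : z ^ 66 ≤ z ^ 76 := pow_le_pow_right₀ hz (by norm_num)
        have h8 : c1 ^ 2 * z ^ 66 ≤ c1 ^ 2 * z ^ 76 := mul_le_mul_of_nonneg_left h7 (by positivity)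
        have h9 : (z * c1 ^ 2) * (z ^ 63 * z ^ 2) = c1 ^ 2 * z ^ 66 := by ring
        have h10 : (c1 * z ^ 38) ^ 2 = c1 ^ 2 * z ^ 76 := by ring
        rw [h10]
        linarith
      have e3 : 0 < 1 / z ^ 2 := by positivity
      have e4 : 4 / z ^ 2 = 4 * (1 / z ^ 2) := by ring
      rw [e4]
      linarith

/-- Job SCL2. -/
theorem t_SCL2 (hPZ : S_PZ) (hBIG : S_BIG) (hCHE : S_CHE2) : S_SCL2 := by
  intro K c hc
  obtain ⟨ε₁, hε₁, c₀, hc₀, hP⟩ := hPZ K (c ^ 2 / 128) (by positivity)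
  refine ⟨min ε₁ (1 / 4), lt_min hε₁ (by norm_num), fun k₀ => ?_⟩
  obtain ⟨Z, hZ⟩ : ∃ Z : ℝ, Z = 1 + k₀ + 2 * k₀ / c + 2 / c + 2 * K + 1 / (c₀ * c ^ 2 / 32) + 512 / (c₀ * c ^ 2 / 32) ^ 2 := ⟨_, rfl⟩
  have a1 : (0 : ℝ) ≤ k₀ := Nat.cast_nonneg _
  have a2 : (0 : ℝ) ≤ 2 * k₀ / c := by positivity
  have a3 : 0 ≤ 2 / c := by positivity
  have a4 : (0 : ℝ) ≤ 2 * K := by positivity
  have a5 : 0 ≤ 1 / (c₀ * c ^ 2 / 32) := by positivity
  have a6 : 0 ≤ 512 / (c₀ * c ^ 2 / 32) ^ 2 := by positivity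
  refine ⟨⌈Z ^ 40⌉₊ + 1, fun N hN p hp hpe hS => ?_⟩
  obtain ⟨z, hz⟩ : ∃ z : ℝ, z = (N : ℝ) ^ (1 / 40 : ℝ) := ⟨_, rfl⟩
  have hN0 : (0 : ℝ) ≤ N := Nat.cast_nonneg _
  have hz0 : 0 ≤ z := by rw [hz]; positivity
  have hz40 : z ^ 40 = N := by
    rw [hz, ← Real.rpow_natCast, ← Real.rpow_mul hN0]
    norm_num
  have hz2 : z ^ 2 = (N : ℝ) ^ (1 / 20 : ℝ) := by
    rw [hz, ← Real.rpow_natCast, ← Real.rpow_mul hN0]
    norm_num
  have hzZ : Z ≤ z := by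
    refine le_of_pow_le_pow_left₀ (n := 40) (by norm_num) hz0 ?_
    rw [hz40]
    refine (Nat.le_ceil _).trans ?_
    exact_mod_cast (by omega : ⌈Z ^ 40⌉₊ ≤ N)
  have hz1 : 1 ≤ z := by linarith
  have hzp : 0 < z := by linarith
  have hs : Real.sqrt N = z ^ 20 := by
    rw [← hz40, show z ^ 40 = (z ^ 20) ^ 2 by ring, Real.sqrt_sq (by positivity)]
  have hz20 : z ≤ z ^ 20 := by
    calc z = z ^ 1 := (pow_one z).symm
      _ ≤ z ^ 20 := pow_le_pow_right₀ hz1 (by norm_num)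
  have hz40' : z ≤ z ^ 40 := by
    calc z = z ^ 1 := (pow_one z).symm
      _ ≤ z ^ 40 := pow_le_pow_right₀ hz1 (by norm_num)
  have hzz : z ≤ z ^ 2 := by nlinarith
  rw [Real.rpow_neg hN0, ← hz2, ← div_eq_mul_inv]
  rw [hs] at hS
  obtain ⟨p', hp'⟩ : ∃ p' : ℕ → ℝ, p' = fun k => if k < N + 1 then p k else 0 := ⟨_, rfl⟩
  have hpp : ∀ k < N + 1, p k = p' k := by
    intro k hk
    rw [hp']
    dsimp only
    rw [if_pos hk]
  have hp01 : ∀ k, 0 ≤ p' k ∧ p' k ≤ 1 := by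
    intro k
    rw [hp']
    dsimp only
    split_ifs
    · exact hp k
    · exact ⟨le_rfl, zero_le_one⟩
  have hpv : ∀ k, N + 1 ≤ k → p' k = 0 := by
    intro k hk
    rw [hp']
    dsimp only
    rw [if_neg (by omega)]
  have hpe' : ∀ k, k₀ ≤ k → p' k ≤ min ε₁ (1 / 4) := by
    intro k hk
    by_cases h : k < N + 1
    · rw [← hpp k h]
      exact hpe k hk
    · rw [hpv k (by omega)]
      exact le_min hε₁.le (by norm_num)
  rw [EB_congr p p' (N + 1) _ hpp]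
  rw [sum_congr rfl fun k hk => hpp k (mem_range.1 hk)] at hS
  have hkN : k₀ ≤ N + 1 := by
    have h5 : (k₀ : ℝ) ≤ N := by rw [← hz40]; linarith
    have h6 : k₀ ≤ N := by exact_mod_cast h5
    omega
  have h5 : ∑ k ∈ range (N + 1), p' k = ∑ k ∈ range k₀, p' k + ∑ k ∈ Ico k₀ (N + 1), p' k := by
    rw [range_eq_Ico, range_eq_Ico, sum_Ico_consecutive _ (Nat.zero_le _) hkN]
  have h6 : ∑ k ∈ range k₀, p' k ≤ k₀ := by
    refine (sum_le_sum fun k _ => (hp01 k).2).trans ?_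
    rw [sum_const, card_range, nsmul_eq_mul, mul_one]
  have h7 : (k₀ : ℝ) ≤ c / 2 * z := by
    have h8 : 2 * k₀ / c ≤ z := by linarith
    rw [div_le_iff₀ hc] at h8
    linarith
  have h8 : 1 ≤ c / 2 * z := by
    have h9 : 2 / c ≤ z := by linarith
    rw [div_le_iff₀ hc] at h9
    linarith
  have h9 : c / 2 * z ≤ c / 2 * z ^ 20 := mul_le_mul_of_nonneg_left hz20 (by positivity)
  have hS1 : c / 2 * z ^ 20 ≤ ∑ k ∈ Ico k₀ (N + 1), p' k := by
    rw [h5] at hS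
    linarith
  have hMz : ((N + 1 : ℕ) : ℝ) ≤ 2 * z ^ 40 := by
    push_cast
    linarith
  refine core hBIG hCHE p' hp01 K k₀ (N + 1) hkN hpv (fun k hk => (hpe' k hk).trans (min_le_right _ _)) c c₀ z hc hc₀ hz1
    hS1 (by linarith) (by linarith) hMz
    (fun n hn => hP p' hp01 k₀ (N + 1) n (fun k hk => (hpe' k hk).trans (min_le_left _ _)) hn)
    (by linarith) (by linarith) (by linarith) _ (fun B => ?_) (fun B n hn hr => ?_)
  · split_ifs
    · exact le_rfl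
    · exact zero_le_one
  · rw [if_neg]
    intro h
    exact hr (h n (mem_range.2 hn))

end Pool.Agent.V5helper84.IR
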